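import Mathlib

/-!
# Points on a circle modulo the square of a prime number
-/

set_option autoImplicit false

namespace Pool.Agent.Lib_helper56.UL

theorem exists_zmod (p : ℕ) [Fact p.Prime] (h4 : p % 4 = 1) (h7 : 7 < p) (n : ZMod p) :
    ∃ a b : ZMod p, a ^ 2 + b ^ 2 = n ∧ a ≠ 0 ∧ b ≠ 0 := by
  have hp : p.Prime := Fact.out
  obtain ⟨i, hi⟩ : ∃ i : ZMod p, i ^ 2 = -1 := by
    obtain ⟨i, hi⟩ := (ZMod.exists_sq_eq_neg_one_iff (p := p)).2 (by omega)
    exact ⟨i, by rw [hi]; ring⟩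
  have hi0 : i ≠ 0 := by
    rintro rfl
    simp at hi
  have hk : ∀ k : ℕ, 0 < k → k < p → (k : ZMod p) ≠ 0 := by
    intro k hk hkp h
    have h1 : p ∣ k := (CharP.cast_eq_zero_iff (ZMod p) p k).1 h
    exact absurd (Nat.le_of_dvd hk h1) (by omega)
  have h2 : (2 : ZMod p) ≠ 0 := by exact_mod_cast hk 2 (by norm_num) (by omega)
  have h3 : (3 : ZMod p) ≠ 0 := by exact_mod_cast hk 3 (by norm_num) (by omega)
  have h5 : (5 : ZMod p) ≠ 0 := by exact_mod_cast hk 5 (by norm_num) (by omega)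
  have h8 : (8 : ZMod p) ≠ 0 := by
    have : (8 : ZMod p) = 2 ^ 3 := by norm_num
    rw [this]
    exact pow_ne_zero _ h2
  obtain ⟨x, hx0, hx1, hx2⟩ : ∃ x : ZMod p, x ≠ 0 ∧ x ^ 2 ≠ n ∧ x ^ 2 ≠ -n := by
    by_contra hcon
    push Not at hcon
    have e1 : (1 : ZMod p) = n ∨ (1 : ZMod p) = -n := by
      by_cases h : (1 : ZMod p) ^ 2 = n
      · left; simpa using h
      · right; simpa using hcon 1 one_ne_zero h
    have e2 : (4 : ZMod p) = n ∨ (4 : ZMod p) = -n := by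
      have h22 : (2 : ZMod p) ^ 2 = 4 := by norm_num
      by_cases h : (2 : ZMod p) ^ 2 = n
      · left; rw [← h22]; exact h
      · right; rw [← h22]; exact hcon 2 h2 h
    have e3 : (9 : ZMod p) = n ∨ (9 : ZMod p) = -n := by
      have h33 : (3 : ZMod p) ^ 2 = 9 := by norm_num
      by_cases h : (3 : ZMod p) ^ 2 = n
      · left; rw [← h33]; exact h
      · right; rw [← h33]; exact hcon 3 h3 h
    have f1 : (1 : ZMod p) ≠ 4 := by
      intro h
      exact h3 (by linear_combination -h)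
    have f2 : (1 : ZMod p) ≠ 9 := by
      intro h
      exact h8 (by linear_combination -h)
    have f3 : (4 : ZMod p) ≠ 9 := by
      intro h
      exact h5 (by linear_combination -h)
    rcases e1 with e1 | e1 <;> rcases e2 with e2 | e2 <;> rcases e3 with e3 | e3
    · exact f1 (e1.trans e2.symm)
    · exact f1 (e1.trans e2.symm)
    · exact f2 (e1.trans e3.symm)
    · exact f3 (e2.trans e3.symm)
    · exact f3 (e2.trans e3.symm)
    · exact f2 (e1.trans e3.symm)
    · exact f1 (e1.trans e2.symm)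
    · exact f1 (e1.trans e2.symm)
  refine ⟨(x + n / x) / 2, (x - n / x) / (2 * i), ?_, ?_, ?_⟩
  · have hi' : (2 * i) ^ 2 = -4 := by
      rw [mul_pow, hi]; norm_num
    have h44 : (4 : ZMod p) ≠ 0 := by
      have : (4 : ZMod p) = 2 ^ 2 := by norm_num
      rw [this]
      exact pow_ne_zero _ h2
    rw [div_pow, div_pow, hi']
    have h22 : (2 : ZMod p) ^ 2 = 4 := by norm_num
    rw [h22]
    field_simp
    ring
  · refine div_ne_zero ?_ h2
    intro h
    apply hx2
    have : x ^ 2 + n = 0 := by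
      have := congrArg (fun y => y * x) h
      simp only [add_mul, zero_mul, div_mul_cancel₀ _ hx0] at this
      linear_combination this
    linear_combination this
  · refine div_ne_zero ?_ (mul_ne_zero h2 hi0)
    intro h
    apply hx1
    have := congrArg (fun y => y * x) h
    simp only [sub_mul, zero_mul, div_mul_cancel₀ _ hx0] at this
    linear_combination this

theorem exists_ab (p : ℕ) (hp : p.Prime) (h4 : p % 4 = 1) (h7 : 7 < p) (D : ℕ) :
    ∃ a b : ℤ, (p : ℤ) ^ 2 ∣ a ^ 2 + b ^ 2 + 2 + D ∧ ¬ (p : ℤ) ∣ a ∧ ¬ (p : ℤ) ∣ b := by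
  have : Fact p.Prime := ⟨hp⟩
  obtain ⟨a, b, hab, ha, hb⟩ := exists_zmod p h4 h7 (-2 - (D : ZMod p))
  obtain ⟨a0, rfl⟩ := ZMod.intCast_surjective a
  obtain ⟨b0, rfl⟩ := ZMod.intCast_surjective b
  have h2 : (2 : ZMod p) ≠ 0 := by
    intro h
    have h1 : p ∣ 2 := (CharP.cast_eq_zero_iff (ZMod p) p 2).1 (by exact_mod_cast h)
    exact absurd (Nat.le_of_dvd (by norm_num) h1) (by omega)
  have hd : (p : ℤ) ∣ a0 ^ 2 + b0 ^ 2 + 2 + D := by
    rw [← ZMod.intCast_zmod_eq_zero_iff_dvd _ p]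
    push_cast
    linear_combination hab
  obtain ⟨k, hk⟩ := hd
  obtain ⟨t, ht⟩ := ZMod.intCast_surjective (-(k : ZMod p) / (2 * (a0 : ZMod p)))
  have ht' : (p : ℤ) ∣ k + 2 * a0 * t := by
    rw [← ZMod.intCast_zmod_eq_zero_iff_dvd _ p]
    push_cast
    rw [ht]
    field_simp
    ring
  obtain ⟨l, hl⟩ := ht'
  refine ⟨a0 + p * t, b0, ⟨l + t ^ 2, ?_⟩, ?_, ?_⟩
  · linear_combination hk + (p : ℤ) * hl
  · intro h
    have h1 : (p : ℤ) ∣ a0 := by
      have : (p : ℤ) ∣ (a0 + p * t) - p * t := dvd_sub h (Dvd.intro _ rfl)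
      simpa using this
    exact ha ((ZMod.intCast_zmod_eq_zero_iff_dvd _ p).2 h1)
  · intro h
    exact hb ((ZMod.intCast_zmod_eq_zero_iff_dvd _ p).2 h)

end Pool.Agent.Lib_helper56.UL
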